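import Pool.Agent.N368.TS.Pl
import Pool.Agent.R318.PR.FinA
import Pool.Agent.H510R2.Div

/-!
# The mean values for primitive roots of the form `d G(L(v))²`, for vectors `v` of residues

The proportion of the vectors of residues modulo `p` for which all the `d_j G_j(L_j(v))²` are primitive roots, for polynomials
`G_j` with a simple complex zero and linearly independent affine forms `L_j`, is the product of the expected densities, up to
`O(d(p - 1) p ^ (-1 / 2))` (Weil's bound); and the sum over consecutive primes.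
-/

set_option autoImplicit false

namespace Pool.Agent.J4H77.AR

open Finset
open Pool.Agent.N368.TS (av bx PerV av_lin right_inv)
open Pool.Agent.R459.Eq (mean ind cc cc_mem ind_mem ind_per)

/-- the primes, `pr 0 = 2` -/
noncomputable abbrev pr (k : ℕ) : ℕ := Nat.nth Nat.Prime k

/-- products of numbers between `0` and `R` -/
lemma prod_diff {κ : Type*} [DecidableEq κ] {R : ℝ} (hR : 1 ≤ R) (I : Finset κ) (a b : κ → ℝ)
    (ha : ∀ i ∈ I, 0 ≤ a i ∧ a i ≤ R) (hb : ∀ i ∈ I, 0 ≤ b i ∧ b i ≤ R) :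
    |∏ i ∈ I, a i - ∏ i ∈ I, b i| ≤ R ^ I.card * ∑ i ∈ I, |a i - b i| := by
  induction I using Finset.induction_on with
  | empty => simp
  | insert i I hi ih =>
    rw [prod_insert hi, prod_insert hi, sum_insert hi, card_insert_of_notMem hi]
    have h1 := ih (fun j hj => ha j (mem_insert_of_mem hj)) (fun j hj => hb j (mem_insert_of_mem hj))
    have hA0 : 0 ≤ ∏ j ∈ I, a j := prod_nonneg fun j hj => (ha j (mem_insert_of_mem hj)).1
    have hA1 : ∏ j ∈ I, a j ≤ R ^ I.card := by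
      have h2 : ∏ j ∈ I, a j ≤ ∏ _j ∈ I, R :=
        prod_le_prod (fun j hj => (ha j (mem_insert_of_mem hj)).1) (fun j hj => (ha j (mem_insert_of_mem hj)).2)
      rwa [prod_const] at h2
    have hbi := hb i (mem_insert_self _ _)
    have hRn : (0 : ℝ) ≤ R ^ I.card := by positivity
    have hS : 0 ≤ ∑ j ∈ I, |a j - b j| := sum_nonneg fun j _ => abs_nonneg _
    have e : a i * ∏ j ∈ I, a j - b i * ∏ j ∈ I, b j =
        (a i - b i) * ∏ j ∈ I, a j + b i * (∏ j ∈ I, a j - ∏ j ∈ I, b j) := by ring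
    rw [e]
    calc |(a i - b i) * ∏ j ∈ I, a j + b i * (∏ j ∈ I, a j - ∏ j ∈ I, b j)|
        ≤ |(a i - b i) * ∏ j ∈ I, a j| + |b i * (∏ j ∈ I, a j - ∏ j ∈ I, b j)| := abs_add_le _ _
      _ = |a i - b i| * ∏ j ∈ I, a j + b i * |∏ j ∈ I, a j - ∏ j ∈ I, b j| := by
          rw [abs_mul, abs_mul, abs_of_nonneg hA0, abs_of_nonneg hbi.1]
      _ ≤ |a i - b i| * R ^ I.card + R * (R ^ I.card * ∑ j ∈ I, |a j - b j|) := by
          refine add_le_add (mul_le_mul_of_nonneg_left hA1 (abs_nonneg _)) (mul_le_mul hbi.2 h1 (abs_nonneg _) (by linarith))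
      _ ≤ R ^ (I.card + 1) * (|a i - b i| + ∑ j ∈ I, |a j - b j|) := by
          rw [pow_succ]
          have h3 : |a i - b i| * R ^ I.card ≤ |a i - b i| * (R ^ I.card * R) := by
            apply mul_le_mul_of_nonneg_left _ (abs_nonneg _)
            nlinarith
          nlinarith

/-- the mean of a product of functions of the coordinates -/
lemma av_coord {m : ℕ} (p : ℕ) (f : Fin m → ℤ → ℝ) :
    av p (fun y : Fin m → ℤ => ∏ j, f j (y j)) = ∏ j, mean p (f j) := by
  unfold av bx mean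
  rw [prod_div_distrib, prod_const, card_univ]
  congr 1
  exact (Finset.prod_univ_sum (fun _ : Fin m => range p) (fun j t => f j ((t : ℕ) : ℤ))).symm

lemma mean_mem (p : ℕ) (f : ℤ → ℝ) (hf : ∀ n, 0 ≤ f n ∧ f n ≤ 1) : 0 ≤ mean p f ∧ mean p f ≤ 1 := by
  unfold mean
  refine ⟨div_nonneg (sum_nonneg fun t _ => (hf _).1) (Nat.cast_nonneg _), ?_⟩
  apply div_le_one_of_le₀ _ (Nat.cast_nonneg _)
  calc ∑ t ∈ range p, f t ≤ ∑ _t ∈ range p, (1 : ℝ) := sum_le_sum fun t _ => (hf _).2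
    _ = p := by rw [sum_const, card_range, nsmul_eq_mul, mul_one]

lemma av_mem {r : ℕ} (p : ℕ) (F : (Fin r → ℤ) → ℝ) (hF : ∀ t, 0 ≤ F t ∧ F t ≤ 1) : 0 ≤ av p F ∧ av p F ≤ 1 := by
  unfold av
  refine ⟨div_nonneg (sum_nonneg fun t _ => (hF _).1) (by positivity), ?_⟩
  apply div_le_one_of_le₀ _ (by positivity)
  calc ∑ t ∈ bx (Fin r) p, F (fun i => (t i : ℤ)) ≤ ∑ _t ∈ bx (Fin r) p, (1 : ℝ) := sum_le_sum fun t _ => (hF _).2
    _ = (p : ℝ) ^ Fintype.card (Fin r) := by
        rw [sum_const, Pool.Agent.N368.TS.card_bx, nsmul_eq_mul, mul_one]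
        push_cast
        rfl

/-- the indicator function that all the `d_j G_j(L_j(v))²` are primitive roots modulo `p` -/
noncomputable def fn {r m : ℕ} (d : Fin m → ℤ) (G : Fin m → Polynomial ℤ) (c₀ : Fin m → ℤ) (M : Fin m → Fin r → ℤ)
    (p : ℕ) (τ : Fin r → ℤ) : ℝ :=
  ∏ j, ind (d j) p ((G j).eval (c₀ j + ∑ l, M j l * τ l))

lemma fn_mem {r m : ℕ} (d : Fin m → ℤ) (G : Fin m → Polynomial ℤ) (c₀ : Fin m → ℤ) (M : Fin m → Fin r → ℤ)
    (p : ℕ) (τ : Fin r → ℤ) : 0 ≤ fn d G c₀ M p τ ∧ fn d G c₀ M p τ ≤ 1 := by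
  unfold fn
  exact ⟨prod_nonneg fun j _ => (ind_mem _ _ _).1, prod_le_one (fun j _ => (ind_mem _ _ _).1) fun j _ => (ind_mem _ _ _).2⟩

/-- the mean value at one prime -/
theorem mean_close {r m : ℕ} (d : Fin m → ℤ) (hd : ∀ j, d j ≠ 0) (G : Fin m → Polynomial ℤ)
    (hG : ∀ j, ∃ z : ℂ, Polynomial.aeval z (G j) = 0 ∧ Polynomial.aeval z (Polynomial.derivative (G j)) ≠ 0)
    (c₀ : Fin m → ℤ) (M : Fin m → Fin r → ℤ) (hM : LinearIndependent ℤ M) :
    ∃ (Q : ℕ) (B : ℝ), Q ≠ 0 ∧ 0 ≤ B ∧ ∀ p : ℕ, p.Prime → ¬ p ∣ Q →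
      |av p (fn d G c₀ M p) - ∏ j, cc (d j) p| ≤ B * (((p - 1).divisors.card : ℝ) / Real.sqrt p) := by
  classical
  choose z hz0 hz1 using hG
  choose Mw hMw0 hMw using fun j => Pool.Agent.R318.PR.weilF (G j) (z j) (hz0 j) (hz1 j)
  obtain ⟨D, R, hD, hR⟩ := right_inv M hM
  refine ⟨2 * (∏ j, (d j).natAbs) * (∏ j, Mw j) * D.natAbs, 2 ^ m * ∑ j, (3 * ((G j).natDegree : ℝ)), ?_, by positivity, ?_⟩
  · refine mul_ne_zero (mul_ne_zero (mul_ne_zero two_ne_zero ?_) ?_) (Int.natAbs_ne_zero.2 hD)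
    · exact prod_ne_zero_iff.2 fun j _ => Int.natAbs_ne_zero.2 (hd j)
    · exact prod_ne_zero_iff.2 fun j _ => hMw0 j
  · intro p hp hpQ
    have hfact : Fact p.Prime := ⟨hp⟩
    have h2 : p ≠ 2 := by
      rintro rfl
      exact hpQ (Dvd.intro _ (by ring : 2 * ((∏ j, (d j).natAbs) * (∏ j, Mw j) * D.natAbs) = _))
    have h3 : ∀ j, ¬ (p : ℤ) ∣ d j := by
      intro j hj
      apply hpQ
      have h4 : p ∣ (d j).natAbs := Int.natCast_dvd.1 hj
      exact (((h4.trans (dvd_prod_of_mem (fun j => (d j).natAbs) (mem_univ j))).mul_left 2).mul_right _).mul_right _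
    have h5 : ∀ j, ¬ p ∣ Mw j := by
      intro j hj
      exact hpQ (((hj.trans (dvd_prod_of_mem Mw (mem_univ j))).mul_left _).mul_right _)
    have h6 : ¬ (p : ℤ) ∣ D := by
      intro hj
      exact hpQ ((Int.natCast_dvd.1 hj).mul_left _)
    have e1 : av p (fn d G c₀ M p) = ∏ j, mean p (fun n => ind (d j) p ((G j).eval n)) := by
      rw [← av_coord]
      have h7 := av_lin c₀ M D R hR p hp h6 (fun y : Fin m → ℤ => ∏ j, ind (d j) p ((G j).eval (y j))) (by
        intro c c' hcc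
        apply prod_congr rfl
        intro j _
        exact ind_per (d j) p _ _ (Pool.Agent.R318.PR.eval_dvd (G j) p _ _ (hcc j)))
      exact h7
    rw [e1]
    have h8 := prod_diff (R := 2) one_le_two univ (fun j => mean p (fun n => ind (d j) p ((G j).eval n)))
      (fun j => cc (d j) p) (fun j _ => by
        have := mean_mem p (fun n => ind (d j) p ((G j).eval n)) (fun n => ind_mem _ _ _)
        exact ⟨this.1, by linarith [this.2]⟩) (fun j _ => cc_mem _ _)
    rw [card_univ, Fintype.card_fin] at h8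
    refine h8.trans ?_
    rw [mul_assoc, sum_mul]
    refine mul_le_mul_of_nonneg_left (sum_le_sum fun j _ => ?_) (by positivity)
    have h9 := Pool.Agent.R318.PR.mean_sq p hp h2 (d j) (h3 j) (G j) (G j).natDegree (hMw j p (h5 j))
    refine h9.trans (le_of_eq ?_)
    ring

end Pool.Agent.J4H77.AR
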