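import Pool.Agent.J4H77.AR.Mean

/-!
# Sums over consecutive primes of the mean values for primitive roots
-/

set_option autoImplicit false

namespace Pool.Agent.J4H77.AR

open Finset
open Pool.Agent.N368.TS (av bx PerV)
open Pool.Agent.R459.Eq (mean ind cc cc_mem ind_mem ind_per)

lemma pr_inj' {a b : ℕ} (h : pr a = pr b) : a = b :=
  Nat.nth_injective Nat.infinite_setOf_prime h

lemma term_bound (δ : ℝ) (hδ : 0 < δ) : ∃ C : ℝ, 0 < C ∧ ∀ n : ℕ,
    ((pr n - 1).divisors.card : ℝ) / Real.sqrt (pr n) ≤ C * ((n : ℝ) + 1) ^ δ * (1 / Real.sqrt ((n : ℝ) + 1)) := by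
  obtain ⟨C, hC, h⟩ := Pool.Agent.H510R2.divisor_bound (δ / 2) (by positivity)
  refine ⟨C * 4 ^ (δ / 2), by positivity, fun n => ?_⟩
  have h1 : n + 2 ≤ pr n := Nat.add_two_le_nth_prime n
  have h2 : pr n ≤ 4 * (n + 1) ^ 2 := Pool.Agent.N368.TS.pr_le n
  have h3 := h (pr n - 1) (by omega)
  have h4 : ((pr n - 1 : ℕ) : ℝ) ≤ 4 * ((n : ℝ) + 1) ^ 2 := by
    have : pr n - 1 ≤ 4 * (n + 1) ^ 2 := by omega
    exact_mod_cast this
  have h5 : ((pr n - 1 : ℕ) : ℝ) ^ (δ / 2) ≤ 4 ^ (δ / 2) * ((n : ℝ) + 1) ^ δ := by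
    calc ((pr n - 1 : ℕ) : ℝ) ^ (δ / 2) ≤ (4 * ((n : ℝ) + 1) ^ 2) ^ (δ / 2) :=
          Real.rpow_le_rpow (Nat.cast_nonneg _) h4 (by positivity)
      _ = 4 ^ (δ / 2) * ((n : ℝ) + 1) ^ δ := by
          rw [Real.mul_rpow (by norm_num) (by positivity), ← Real.rpow_natCast, ← Real.rpow_mul (by positivity)]
          congr 2
          push_cast
          ring
  have hn0 : (0 : ℝ) < (n : ℝ) + 1 := by positivity
  have h6 : Real.sqrt ((n : ℝ) + 1) ≤ Real.sqrt (pr n) := by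
    apply Real.sqrt_le_sqrt
    have : n + 1 ≤ pr n := by omega
    exact_mod_cast this
  have h7 : 0 < Real.sqrt ((n : ℝ) + 1) := Real.sqrt_pos.2 hn0
  rw [mul_one_div]
  calc ((pr n - 1).divisors.card : ℝ) / Real.sqrt (pr n) ≤ ((pr n - 1).divisors.card : ℝ) / Real.sqrt ((n : ℝ) + 1) :=
        div_le_div_of_nonneg_left (Nat.cast_nonneg _) h7 h6
    _ ≤ (C * 4 ^ (δ / 2) * ((n : ℝ) + 1) ^ δ) / Real.sqrt ((n : ℝ) + 1) := by
        apply div_le_div_of_nonneg_right _ h7.le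
        calc ((pr n - 1).divisors.card : ℝ) ≤ C * ((pr n - 1 : ℕ) : ℝ) ^ (δ / 2) := h3
          _ ≤ C * (4 ^ (δ / 2) * ((n : ℝ) + 1) ^ δ) := mul_le_mul_of_nonneg_left h5 hC.le
          _ = _ := by ring

lemma sum_sqrt (N : ℕ) : ∑ n ∈ range N, 1 / Real.sqrt ((n : ℝ) + 1) ≤ 2 * Real.sqrt N := by
  have h := Pool.Agent.R318.PR.sum_inv_sqrt N
  have e : ∑ e ∈ Icc 1 N, 1 / Real.sqrt e = ∑ n ∈ range N, 1 / Real.sqrt ((n : ℝ) + 1) := by
    have h1 : Icc 1 N = (range N).image (fun n => n + 1) := by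
      ext x
      rw [mem_Icc, mem_image]
      constructor
      · rintro ⟨h1, h2⟩
        exact ⟨x - 1, mem_range.2 (by omega), by omega⟩
      · rintro ⟨y, hy, rfl⟩
        rw [mem_range] at hy
        omega
    rw [h1, sum_image (fun a _ b _ hab => by simpa using hab)]
    apply sum_congr rfl
    intro n _
    push_cast
    rfl
  rw [← e]
  exact h

/-- the sum over consecutive primes -/
theorem sum_close {r m : ℕ} (d : Fin m → ℤ) (hd : ∀ j, d j ≠ 0) (G : Fin m → Polynomial ℤ)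
    (hG : ∀ j, ∃ z : ℂ, Polynomial.aeval z (G j) = 0 ∧ Polynomial.aeval z (Polynomial.derivative (G j)) ≠ 0)
    (c₀ : Fin m → ℤ) (M : Fin m → Fin r → ℤ) (hM : LinearIndependent ℤ M) (s : ℕ) (δ : ℝ) (hδ : 0 < δ) :
    ∃ C : ℝ, 0 ≤ C ∧ ∀ (I : Finset ℕ) (K : ℕ), 1 ≤ K → I ⊆ range K →
      |∑ k ∈ I, ∏ i : Fin s, av (pr (k + i)) (fn d G c₀ M (pr (k + i))) -
        ∑ k ∈ I, ∏ i : Fin s, ∏ j, cc (d j) (pr (k + i))| ≤ C * (K : ℝ) ^ (1 / 2 + δ) := by
  classical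
  obtain ⟨Q, B, hQ, hB, hclose⟩ := mean_close d hd G hG c₀ M hM
  obtain ⟨C₁, hC₁, hterm⟩ := term_bound δ hδ
  obtain ⟨a, ha⟩ : ∃ a : ℕ → ℝ, a = fun n => av (pr n) (fn d G c₀ M (pr n)) := ⟨_, rfl⟩
  obtain ⟨b, hb⟩ : ∃ b : ℕ → ℝ, b = fun n => ∏ j, cc (d j) (pr n) := ⟨_, rfl⟩
  have h2m : (1 : ℝ) ≤ 2 ^ m := one_le_pow₀ (by norm_num)
  have ha1 : ∀ n, 0 ≤ a n ∧ a n ≤ 2 ^ m := by
    intro n
    have := av_mem (pr n) (fn d G c₀ M (pr n)) (fn_mem d G c₀ M (pr n))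
    rw [ha]
    exact ⟨this.1, this.2.trans h2m⟩
  have hb1 : ∀ n, 0 ≤ b n ∧ b n ≤ 2 ^ m := by
    intro n
    rw [hb]
    refine ⟨prod_nonneg fun j _ => (cc_mem _ _).1, ?_⟩
    calc ∏ j, cc (d j) (pr n) ≤ ∏ _j : Fin m, (2 : ℝ) := prod_le_prod (fun j _ => (cc_mem _ _).1) fun j _ => (cc_mem _ _).2
      _ = 2 ^ m := by rw [prod_const, card_univ, Fintype.card_fin]
  -- one prime
  have he : ∀ n, |a n - b n| ≤ (if pr n ∣ Q then 2 ^ m else 0) + B * (C₁ * ((n : ℝ) + 1) ^ δ * (1 / Real.sqrt ((n : ℝ) + 1))) := by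
    intro n
    split_ifs with h
    · have h1 : |a n - b n| ≤ 2 ^ m := by
        rw [abs_le]
        have := ha1 n
        have := hb1 n
        constructor <;> linarith
      have h2 : 0 ≤ B * (C₁ * ((n : ℝ) + 1) ^ δ * (1 / Real.sqrt ((n : ℝ) + 1))) := by positivity
      linarith
    · rw [zero_add, ha, hb]
      exact (hclose (pr n) (Nat.prime_nth_prime n) h).trans (mul_le_mul_of_nonneg_left (hterm n) hB)
  -- the sum over the primes
  have hsum : ∀ N : ℕ, 1 ≤ N → ∑ n ∈ range N, |a n - b n| ≤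
      (2 ^ m * (Q.primeFactors.card : ℝ) + B * C₁ * 2) * (N : ℝ) ^ (1 / 2 + δ) := by
    intro N hN
    have hN1 : (1 : ℝ) ≤ N := by exact_mod_cast hN
    have hN0 : (0 : ℝ) < N := by linarith
    have hNp : (1 : ℝ) ≤ (N : ℝ) ^ (1 / 2 + δ) := Real.one_le_rpow hN1 (by positivity)
    have h1 : ∑ n ∈ range N, (if pr n ∣ Q then (2 : ℝ) ^ m else 0) ≤ 2 ^ m * (Q.primeFactors.card : ℝ) := by
      rw [← sum_filter, sum_const, nsmul_eq_mul, mul_comm]
      apply mul_le_mul_of_nonneg_left _ (by positivity)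
      have h2 : ((range N).filter (fun n => pr n ∣ Q)).card ≤ Q.primeFactors.card := by
        apply card_le_card_of_injOn pr
        · intro n hn
          rw [mem_coe, mem_filter] at hn
          rw [mem_coe, Nat.mem_primeFactors]
          exact ⟨Nat.prime_nth_prime n, hn.2, hQ⟩
        · intro x _ y _ hxy
          exact pr_inj' hxy
      exact_mod_cast h2
    have h3 : ∑ n ∈ range N, B * (C₁ * ((n : ℝ) + 1) ^ δ * (1 / Real.sqrt ((n : ℝ) + 1))) ≤
        B * C₁ * 2 * (N : ℝ) ^ (1 / 2 + δ) := by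
      calc ∑ n ∈ range N, B * (C₁ * ((n : ℝ) + 1) ^ δ * (1 / Real.sqrt ((n : ℝ) + 1)))
          ≤ ∑ n ∈ range N, B * C₁ * (N : ℝ) ^ δ * (1 / Real.sqrt ((n : ℝ) + 1)) := by
            refine sum_le_sum fun n hn => ?_
            rw [mem_range] at hn
            have h4 : ((n : ℝ) + 1) ^ δ ≤ (N : ℝ) ^ δ := by
              apply Real.rpow_le_rpow (by positivity) _ hδ.le
              exact_mod_cast hn
            have h5 : 0 ≤ 1 / Real.sqrt ((n : ℝ) + 1) := by positivity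
            calc B * (C₁ * ((n : ℝ) + 1) ^ δ * (1 / Real.sqrt ((n : ℝ) + 1))) =
                  (B * C₁) * ((n : ℝ) + 1) ^ δ * (1 / Real.sqrt ((n : ℝ) + 1)) := by ring
              _ ≤ (B * C₁) * (N : ℝ) ^ δ * (1 / Real.sqrt ((n : ℝ) + 1)) := by gcongr
        _ = B * C₁ * (N : ℝ) ^ δ * ∑ n ∈ range N, 1 / Real.sqrt ((n : ℝ) + 1) := by rw [← mul_sum]
        _ ≤ B * C₁ * (N : ℝ) ^ δ * (2 * Real.sqrt N) := mul_le_mul_of_nonneg_left (sum_sqrt N) (by positivity)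
        _ = B * C₁ * 2 * (N : ℝ) ^ (1 / 2 + δ) := by
            rw [Real.rpow_add hN0, ← Real.sqrt_eq_rpow]
            ring
    calc ∑ n ∈ range N, |a n - b n| ≤ ∑ n ∈ range N, ((if pr n ∣ Q then 2 ^ m else 0) +
          B * (C₁ * ((n : ℝ) + 1) ^ δ * (1 / Real.sqrt ((n : ℝ) + 1)))) := sum_le_sum fun n _ => he n
      _ ≤ 2 ^ m * (Q.primeFactors.card : ℝ) + B * C₁ * 2 * (N : ℝ) ^ (1 / 2 + δ) := by
          rw [sum_add_distrib]
          exact add_le_add h1 h3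
      _ ≤ _ := by
          rw [add_mul]
          apply add_le_add _ le_rfl
          exact le_mul_of_one_le_right (by positivity) hNp
  obtain ⟨C₂, hC₂⟩ : ∃ C₂ : ℝ, C₂ = 2 ^ m * (Q.primeFactors.card : ℝ) + B * C₁ * 2 := ⟨_, rfl⟩
  have hC₂0 : 0 ≤ C₂ := by rw [hC₂]; positivity
  refine ⟨(2 ^ m) ^ s * (s * (C₂ * ((s : ℝ) + 1) ^ (1 / 2 + δ))), by positivity, ?_⟩
  intro I K hK hI
  have hK1 : (1 : ℝ) ≤ K := by exact_mod_cast hK
  rw [← sum_sub_distrib]
  have h1 : ∀ k, |∏ i : Fin s, av (pr (k + i)) (fn d G c₀ M (pr (k + i))) - ∏ i : Fin s, ∏ j, cc (d j) (pr (k + i))| ≤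
      (2 ^ m) ^ s * ∑ i : Fin s, |a (k + i) - b (k + i)| := by
    intro k
    have h2 := prod_diff h2m (univ : Finset (Fin s)) (fun i => a (k + i)) (fun i => b (k + i)) (fun i _ => ha1 _)
      (fun i _ => hb1 _)
    rw [card_univ, Fintype.card_fin, ha, hb] at h2
    rw [ha, hb]
    exact h2
  calc |∑ k ∈ I, (∏ i : Fin s, av (pr (k + i)) (fn d G c₀ M (pr (k + i))) - ∏ i : Fin s, ∏ j, cc (d j) (pr (k + i)))|
      ≤ ∑ k ∈ I, |∏ i : Fin s, av (pr (k + i)) (fn d G c₀ M (pr (k + i))) - ∏ i : Fin s, ∏ j, cc (d j) (pr (k + i))| :=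
        abs_sum_le_sum_abs _ _
    _ ≤ ∑ k ∈ I, (2 ^ m) ^ s * ∑ i : Fin s, |a (k + i) - b (k + i)| := sum_le_sum fun k _ => h1 k
    _ ≤ ∑ k ∈ range K, (2 ^ m) ^ s * ∑ i : Fin s, |a (k + i) - b (k + i)| := by
        apply sum_le_sum_of_subset_of_nonneg hI
        intro k _ _
        positivity
    _ = (2 ^ m) ^ s * ∑ i : Fin s, ∑ k ∈ range K, |a (k + i) - b (k + i)| := by
        rw [← mul_sum, sum_comm]
    _ ≤ (2 ^ m) ^ s * ∑ _i : Fin s, (C₂ * (((s : ℝ) + 1) ^ (1 / 2 + δ) * (K : ℝ) ^ (1 / 2 + δ))) := by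
        refine mul_le_mul_of_nonneg_left (sum_le_sum fun i _ => ?_) (by positivity)
        have h3 : ∑ k ∈ range K, |a (k + i) - b (k + i)| ≤ ∑ n ∈ range (K + s), |a n - b n| := by
          have e : ∑ k ∈ range K, |a (k + i) - b (k + i)| = ∑ n ∈ (range K).image (fun k => k + (i : ℕ)), |a n - b n| := by
            rw [sum_image (fun x _ y _ hxy => by simpa using hxy)]
          rw [e]
          apply sum_le_sum_of_subset_of_nonneg
          · intro n hn
            rw [mem_image] at hn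
            obtain ⟨k, hk, rfl⟩ := hn
            rw [mem_range] at hk ⊢
            have := i.isLt
            omega
          · intro n _ _
            exact abs_nonneg _
        have h4 := hsum (K + s) (by omega)
        rw [← hC₂] at h4
        have h5 : ((K + s : ℕ) : ℝ) ^ (1 / 2 + δ) ≤ ((s : ℝ) + 1) ^ (1 / 2 + δ) * (K : ℝ) ^ (1 / 2 + δ) := by
          rw [← Real.mul_rpow (by positivity) (by positivity)]
          apply Real.rpow_le_rpow (Nat.cast_nonneg _) _ (by positivity)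
          push_cast
          have : (0 : ℝ) ≤ s := Nat.cast_nonneg s
          nlinarith
        exact h3.trans (h4.trans (mul_le_mul_of_nonneg_left h5 hC₂0))
    _ = _ := by
        rw [sum_const, card_univ, Fintype.card_fin, nsmul_eq_mul]
        ring

/-- the primes up to `x` -/
lemma sum_primes (f : ℕ → ℝ) (x : ℕ) :
    ∑ k ∈ range (Nat.primeCounting x), f (pr k) = ∑ p ∈ (range (x + 1)).filter Nat.Prime, f p := by
  apply sum_nbij' (fun k => pr k) (fun p => Nat.count Nat.Prime p)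
  · intro k hk
    rw [mem_range] at hk
    rw [mem_filter, mem_range]
    refine ⟨?_, Nat.prime_nth_prime k⟩
    exact Nat.nth_lt_of_lt_count hk
  · intro p hp
    rw [mem_filter, mem_range] at hp
    rw [mem_range]
    exact (Nat.count_strict_mono hp.2 hp.1)
  · intro k hk
    exact Nat.count_nth_of_infinite Nat.infinite_setOf_prime k
  · intro p hp
    rw [mem_filter] at hp
    exact Nat.nth_count hp.2
  · intro k _
    rfl

end Pool.Agent.J4H77.AR
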